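import Pool.Agent.BisTh.Main

/-!
# A sharp expansion threshold for approximately counting independent sets of bipartite graphs
-/

set_option autoImplicit false

namespace Pool.Agent.Results.MP_29585b_lc.ExpansionThreshold

open Pool.Agent.BisTh

/-- Above the threshold there is a deterministic approximation scheme: for all `r ≥ 1` and `C` a
polynomial time machine computes from a bipartite graph `G` and `t` (in unary) a number `A` which
has relative error at most `1 / t` whenever `G` is in the class `O(r, C)`. Below the threshold the
problem is as hard as for all bipartite graphs: for every `c ≥ 1` a polynomial time machine computes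
from `H` and `s` a graph `G` with `N` vertices on each side and all degrees at least
`(N - N ^ (1 / c)) / 2`, and `k`, such that `i(G) / 2 ^ k` is between `i(H)` and
`i(H) + 2 ^ (- s)`. -/
theorem result :
    (Function.Injective encInput ∧ Function.Injective encNat) ∧
    (∀ r C : ℕ, 1 ≤ r → ∃ A : Bip × ℕ → ℕ,
      Nonempty (Turing.TM2ComputableInPolyTime encInput encNat A) ∧
      ∀ (G : Bip) (t : ℕ), G.Expands r C →
        A (G, t) ≤ G.count ∧ t * (G.count - A (G, t)) ≤ G.count) ∧
    (∀ c : ℕ, 1 ≤ c → ∃ ρ : Bip × ℕ → Bip × ℕ,
      Nonempty (Turing.TM2ComputableInPolyTime encInput encInput ρ) ∧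
      ∀ (H : Bip) (s : ℕ), (ρ (H, s)).1.NearHalf c ∧
        2 ^ (ρ (H, s)).2 * H.count ≤ (ρ (H, s)).1.count ∧
        2 ^ s * ((ρ (H, s)).1.count - 2 ^ (ρ (H, s)).2 * H.count) ≤ 2 ^ (ρ (H, s)).2) :=
  ⟨⟨encInput_injective, encNat_injective⟩, statementA, statementB⟩

end Pool.Agent.Results.MP_29585b_lc.ExpansionThreshold
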