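import Pool.Agent.BisRh.Main
import Pool.Agent.BisRu.Red
import Pool.Agent.BisRu.Red4
import Pool.Agent.BisRk.Fin3

/-!
# Approximately counting independent sets of bipartite graphs: the matching parameter
-/

set_option autoImplicit false

namespace Pool.Agent.Results.MP_29585b_lc.MatchingParameter

open Pool.Agent.BisTh Pool.Agent.BisRg Pool.Agent.BisRh Pool.Agent.BisRu Pool.Agent.BisRk

/-- The complexity of approximately counting the independent sets of a bipartite graph with sides of
sizes `a` and `b` is governed by `x = ν / D + c`, where no matching has more than `ν` edges and the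
graph has at least `2 ^ M` independent sets and a fractional matching with all weights at most
`1 / D` and total at least `a + b - M - c`. First part: a deterministic algorithm in time polynomial
in the input, `t` and `w`, where `w ≥ 2 ^ k`, `k ≥ x`. Second part: a deterministic approximation
scheme for `x ≤ q * log (a + b)`. Third part: one may take `M = a + b - ν`. Fourth part: for
`M = a = b = n`, `D = d + s` and `c = 2 * s` (degrees between `d` and `d + s`, `n = 2 * d + s`,
`s ^ C ≤ n`) the problem is as hard as for all bipartite graphs `H` with `s - r - 2` vertices. Fifth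
part: the same for `M = a = b = n`, `D = d`, `c = 0` (regular graphs, `n / d = 2 * a + b + 3` with
the sides `a`, `b` of `H`, and `(n / d + r) ^ C ≤ n`). -/
theorem result :
    (Function.Injective encInput₂ ∧ Function.Injective encInput ∧ Function.Injective encBip ∧
      Function.Injective encNat) ∧
    (∃ A : Bip × ℕ × ℕ → ℕ, Nonempty (Turing.TM2ComputableInPolyTime encInput₂ encNat A) ∧
      ∀ (G : Bip) (t w : ℕ), A (G, t, w) ≤ G.count ∧
        ∀ D M c ν k : ℕ, 1 ≤ D → MatchLe G ν → 2 ^ M ≤ G.count → SpreadFor G D (M + c) →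
          ν + D * c ≤ D * k → 2 ^ k ≤ w → t * (G.count - A (G, t, w)) ≤ G.count) ∧
    (∀ q : ℕ, ∃ A : Bip × ℕ → ℕ, Nonempty (Turing.TM2ComputableInPolyTime encInput encNat A) ∧
      ∀ (G : Bip) (t : ℕ), A (G, t) ≤ G.count ∧
        ∀ D M c ν : ℕ, 1 ≤ D → MatchLe G ν → 2 ^ M ≤ G.count → SpreadFor G D (M + c) →
          ν + D * c ≤ D * (q * Nat.log 2 (G.a + G.b)) → t * (G.count - A (G, t)) ≤ G.count) ∧
    (∀ (G : Bip) (ν : ℕ), MatchLe G ν → 2 ^ (G.a + G.b - ν) ≤ G.count) ∧
    (∀ C : ℕ, 1 ≤ C → ∃ ρ : Bip × ℕ → Bip × ℕ,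
      Nonempty (Turing.TM2ComputableInPolyTime encInput encInput ρ) ∧
      ∀ (H : Bip) (r : ℕ), (∃ d : ℕ, NearRegular (ρ (H, r)).1 d (H.a + H.b + r + 2) ∧
          (ρ (H, r)).1.a = 2 * d + (H.a + H.b + r + 2)) ∧
        (H.a + H.b + r + 2) ^ C ≤ (ρ (H, r)).1.a ∧
        2 ^ (ρ (H, r)).2 * H.count ≤ (ρ (H, r)).1.count ∧
        2 ^ r * ((ρ (H, r)).1.count - 2 ^ (ρ (H, r)).2 * H.count) ≤ 2 ^ (ρ (H, r)).2) ∧
    (∀ C : ℕ, 1 ≤ C → ∃ ρ : Bip × ℕ → Bip,
      Nonempty (Turing.TM2ComputableInPolyTime encInput encBip ρ) ∧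
      ∀ (H : Bip) (r : ℕ), (∃ d : ℕ, NearRegular (ρ (H, r)) d 0 ∧
          (ρ (H, r)).a = (2 * H.a + H.b + 3) * d) ∧
        (2 * H.a + H.b + 3 + r) ^ C ≤ (ρ (H, r)).a ∧
        2 ^ r * ((ρ (H, r)).count - 2 ^ (ρ (H, r)).a * (H.count + 2 ^ H.a + 1)) ≤
          2 ^ (ρ (H, r)).a ∧
        2 ^ r * (2 ^ (ρ (H, r)).a * (H.count + 2 ^ H.a + 1) - (ρ (H, r)).count) ≤
          2 ^ (ρ (H, r)).a) :=
  ⟨⟨encInput₂_injective, encInput_injective, encBip_injective, encNat_injective⟩,
    statement18, statement19, statement16, statement3x, statement4x⟩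

end Pool.Agent.Results.MP_29585b_lc.MatchingParameter
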